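import Mathlib

set_option autoImplicit false

namespace Pool.Agent.H.MP_c7d282_an

open Matrix Complex
open scoped ComplexOrder MatrixOrder

section general
variable {ι κ : Type} [Fintype ι] [DecidableEq ι] [Fintype κ] [DecidableEq κ]

lemma psd_sq {P : Matrix ι ι ℂ} (h : P.PosSemidef) : ∃ Q : Matrix ι ι ℂ, P = Qᴴ * Q := by
  obtain ⟨B, hB⟩ := CStarAlgebra.nonneg_iff_eq_star_mul_self.mp h.nonneg
  exact ⟨B, hB⟩

omit [DecidableEq κ] in
lemma psd_kill {P : Matrix ι ι ℂ} (h : P.PosSemidef) (B : Matrix ι κ ℂ) (h0 : Bᴴ * P * B = 0) :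
    P * B = 0 := by
  obtain ⟨Q, rfl⟩ := psd_sq h
  have : (Q * B)ᴴ * (Q * B) = 0 := by
    rw [conjTranspose_mul, ← h0]; simp only [Matrix.mul_assoc]
  rw [conjTranspose_mul_self_eq_zero] at this
  rw [Matrix.mul_assoc, this, Matrix.mul_zero]

omit [DecidableEq ι] in
lemma psd_sum_zero {I : Type} [Fintype I] (P : I → Matrix ι ι ℂ) (h : ∀ i, (P i).PosSemidef)
    (h0 : ∑ i, P i = 0) (i : I) : P i = 0 := by
  classical
  rw [← (h i).trace_eq_zero_iff]
  have h1 : ∑ i, (P i).trace = 0 := by rw [← trace_sum, h0, trace_zero]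
  exact (Finset.sum_eq_zero_iff_of_nonneg (fun j _ => (h j).trace_nonneg)).mp h1 i (Finset.mem_univ _)

lemma contr_flip (T : Matrix ι κ ℂ) (h : (1 - Tᴴ * T).PosSemidef) : (1 - T * Tᴴ).PosSemidef := by
  have e : (1 - T * Tᴴ) = (1 - T * Tᴴ)ᴴ * (1 - T * Tᴴ) + T * (1 - Tᴴ * T) * Tᴴ := by
    simp only [conjTranspose_sub, conjTranspose_one, conjTranspose_mul, conjTranspose_conjTranspose,
      Matrix.mul_sub, Matrix.sub_mul, Matrix.mul_one, Matrix.one_mul, Matrix.mul_assoc]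
    abel
  rw [e]
  exact (posSemidef_conjTranspose_mul_self _).add (h.mul_mul_conjTranspose_same T)

lemma card_eq (U : Matrix ι κ ℂ) (h1 : Uᴴ * U = 1) (h2 : U * Uᴴ = 1) :
    Fintype.card ι = Fintype.card κ := by
  have h := trace_mul_comm U Uᴴ
  rw [h1, h2, trace_one, trace_one] at h
  exact_mod_cast h

lemma toFin (κ : Type) [Fintype κ] [DecidableEq κ] :
    ∃ U : Matrix κ (Fin (Fintype.card κ)) ℂ, Uᴴ * U = 1 ∧ U * Uᴴ = 1 := by
  let e := (Fintype.equivFin κ).symm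
  refine ⟨(1 : Matrix κ κ ℂ).submatrix id e, ?_, ?_⟩
  · rw [conjTranspose_submatrix, conjTranspose_one]
    have := submatrix_mul_equiv (1 : Matrix κ κ ℂ) (1 : Matrix κ κ ℂ) e (Equiv.refl κ) e
    simp only [Equiv.coe_refl] at this
    rw [this]; simp
  · rw [conjTranspose_submatrix, conjTranspose_one, submatrix_mul_equiv]; simp

lemma split {M : Matrix ι ι ℂ} (hM : M.IsHermitian) (c : ℝ) :
    ∃ (a b : ℕ) (U : Matrix ι (Fin a) ℂ) (W : Matrix ι (Fin b) ℂ) (d : Fin b → ℝ),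
      (∀ k, d k ≠ c) ∧ Uᴴ * U = 1 ∧ Wᴴ * W = 1 ∧ Uᴴ * W = 0 ∧ U * Uᴴ + W * Wᴴ = 1 ∧
      M * U = (c : ℂ) • U ∧ M * W = W * diagonal (fun k => (d k : ℂ)) ∧
      (∀ i, hM.eigenvalues i = c → 0 < a) := by
  classical
  obtain ⟨E, hE⟩ : ∃ E : Matrix ι ι ℂ, E = (hM.eigenvectorUnitary : Matrix ι ι ℂ) := ⟨_, rfl⟩
  obtain ⟨l, hl⟩ : ∃ l : ι → ℝ, l = hM.eigenvalues := ⟨_, rfl⟩
  have h1 : Eᴴ * E = 1 := by
    rw [hE]; exact Unitary.coe_star_mul_self hM.eigenvectorUnitary
  have h2 : E * Eᴴ = 1 := by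
    rw [hE]; exact Unitary.coe_mul_star_self hM.eigenvectorUnitary
  have h3 : M * E = E * diagonal (fun i => (l i : ℂ)) := by
    have := hM.spectral_theorem
    rw [Unitary.conjStarAlgAut_apply] at this
    have h4 : M = E * diagonal (fun i => (l i : ℂ)) * Eᴴ := by
      rw [hE, hl]; exact this
    conv_lhs => rw [h4]
    rw [Matrix.mul_assoc, h1, Matrix.mul_one]
  let p : ι → Prop := fun i => l i = c
  let e1 := (Fintype.equivFin {i // p i}).symm
  let e2 := (Fintype.equivFin {i // ¬ p i}).symm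
  have hEE : ∀ x y, ∑ i, star (E i x) * E i y = if x = y then 1 else 0 := by
    intro x y
    have := congrFun (congrFun h1 x) y
    simpa [Matrix.mul_apply, one_apply] using this
  have hME : ∀ i x, (M * E) i x = E i x * l x := by
    intro i x; rw [h3, mul_diagonal]
  refine ⟨_, _, E.submatrix id (fun k => (e1 k).1), E.submatrix id (fun k => (e2 k).1),
    fun k => l (e2 k).1, fun k => (e2 k).2, ?_, ?_, ?_, ?_, ?_, ?_, ?_⟩
  · ext x y
    simp only [Matrix.mul_apply, conjTranspose_apply, submatrix_apply, id, hEE, one_apply]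
    simp [Subtype.ext_iff.symm]
  · ext x y
    simp only [Matrix.mul_apply, conjTranspose_apply, submatrix_apply, id, hEE, one_apply]
    simp [Subtype.ext_iff.symm]
  · ext x y
    simp only [Matrix.mul_apply, conjTranspose_apply, submatrix_apply, id, hEE, Matrix.zero_apply]
    rw [if_neg]
    intro h
    exact (e2 y).2 (h ▸ (e1 x).2)
  · rw [← h2]
    ext x y
    simp only [Matrix.add_apply, Matrix.mul_apply, conjTranspose_apply, submatrix_apply, id]
    rw [e1.sum_comp (fun k => E x k.1 * star (E y k.1)), e2.sum_comp (fun k => E x k.1 * star (E y k.1))]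
    exact Fintype.sum_subtype_add_sum_subtype p (fun k => E x k * star (E y k))
  · ext i x
    have := hME i (e1 x).1
    have h5 : l (e1 x).1 = c := (e1 x).2
    rw [h5] at this
    simp only [Matrix.mul_apply, submatrix_apply, id, Matrix.smul_apply, smul_eq_mul] at this ⊢
    rw [this, mul_comm]
  · ext i x
    have := hME i (e2 x).1
    rw [mul_diagonal]
    simp only [Matrix.mul_apply, submatrix_apply, id] at this ⊢
    exact this
  · intro i hi
    rw [← hl] at hi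
    exact Fintype.card_pos_iff.mpr ⟨⟨i, hi⟩⟩

lemma complete (U : Matrix ι κ ℂ) (hU : Uᴴ * U = 1) :
    ∃ (a : ℕ) (W : Matrix ι (Fin a) ℂ), Wᴴ * W = 1 ∧ Uᴴ * W = 0 ∧ U * Uᴴ + W * Wᴴ = 1 := by
  have hQ : (1 - U * Uᴴ).IsHermitian :=
    isHermitian_one.sub (isHermitian_mul_conjTranspose_self U)
  have hQQ : (1 - U * Uᴴ) * (1 - U * Uᴴ) = 1 - U * Uᴴ := by
    simp only [Matrix.mul_sub, Matrix.sub_mul, Matrix.mul_one, Matrix.one_mul, Matrix.mul_assoc]
    rw [← Matrix.mul_assoc Uᴴ, hU, Matrix.one_mul]; abel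
  obtain ⟨a, b, W, Z, d, hd, h1, h2, h3, h4, h5, h6, -⟩ := split hQ 1
  simp only [ofReal_one, one_smul] at h5
  have hD : diagonal (fun k => (d k : ℂ)) * diagonal (fun k => (d k : ℂ)) =
      diagonal (fun k => (d k : ℂ)) := by
    have e1 : (1 - U * Uᴴ) * ((1 - U * Uᴴ) * Z) = (1 - U * Uᴴ) * Z := by
      rw [← Matrix.mul_assoc, hQQ]
    rw [h6, ← Matrix.mul_assoc, h6, Matrix.mul_assoc] at e1
    have e2 := congrArg (fun A => Zᴴ * A) e1
    simp only [← Matrix.mul_assoc, h2, Matrix.one_mul] at e2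
    exact e2
  have hd0 : ∀ k, (d k : ℂ) = 0 := by
    intro k
    rw [diagonal_mul_diagonal] at hD
    have := congrFun (diagonal_injective hD) k
    have h7 : (d k : ℂ) ≠ 1 := by exact_mod_cast hd k
    have h8 : (d k : ℂ) * ((d k : ℂ) - 1) = 0 := by linear_combination this
    exact (mul_eq_zero.mp h8).resolve_right (sub_ne_zero.mpr h7)
  have hZ : (1 - U * Uᴴ) * Z = 0 := by
    rw [h6]; simp [hd0]
  refine ⟨a, W, h1, ?_, ?_⟩
  · rw [← h5, ← Matrix.mul_assoc, Matrix.mul_sub, ← Matrix.mul_assoc, hU]; simp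
  · have e1 : (1 - U * Uᴴ) * (W * Wᴴ + Z * Zᴴ) = W * Wᴴ := by
      rw [Matrix.mul_add, ← Matrix.mul_assoc, h5, ← Matrix.mul_assoc, hZ]; simp
    rw [h4, Matrix.mul_one] at e1
    rw [← e1]; abel

lemma card_add {α β : Type} [Fintype α] [DecidableEq α] [Fintype β] [DecidableEq β]
    (U : Matrix ι α ℂ) (W : Matrix ι β ℂ) (h1 : Uᴴ * U = 1) (h2 : Wᴴ * W = 1)
    (h4 : U * Uᴴ + W * Wᴴ = 1) : Fintype.card α + Fintype.card β = Fintype.card ι := by
  have h := congrArg trace h4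
  rw [trace_add, trace_mul_comm U, trace_mul_comm W, h1, h2, trace_one, trace_one, trace_one] at h
  exact_mod_cast h

end general

end Pool.Agent.H.MP_c7d282_an
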