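import Pool.Agent.H.MP_c7d282_an.A

set_option autoImplicit false
set_option linter.unusedSectionVars false

namespace Pool.Agent.H.MP_c7d282_an

open Matrix Complex
open scoped ComplexOrder MatrixOrder

section
variable {ι κ : Type} [Fintype ι] [DecidableEq ι] [Fintype κ] [DecidableEq κ]

noncomputable def Tm (X : Fin 8 → Matrix ι ι ℂ) : Matrix ι (ι ⊕ ι) ℂ :=
  fromCols (X 0 + I • X 1) (X 2 + I • X 3)

noncomputable def Gm (X : Fin 8 → Matrix ι ι ℂ) : Matrix (ι ⊕ ι) (ι ⊕ ι) ℂ :=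
  fromBlocks (X 4) (X 6 + I • X 7) (X 6 - I • X 7) (X 5)

def dbl (V : Matrix κ ι ℂ) : Matrix (κ ⊕ κ) (ι ⊕ ι) ℂ := fromBlocks V 0 0 V

def InK (X : Fin 8 → Matrix ι ι ℂ) : Prop :=
  (∀ j, (X j).IsHermitian) ∧ (Gm X - (Tm X)ᴴ * Tm X).PosSemidef ∧ (1 - Gm X).PosSemidef

def InS (X : Fin 8 → Matrix ι ι ℂ) : Prop :=
  (∀ j, (X j).IsHermitian) ∧ Gm X = (Tm X)ᴴ * Tm X ∧ Tm X * (Tm X)ᴴ = 1

lemma InS.inK {X : Fin 8 → Matrix ι ι ℂ} (h : InS X) : InK X := by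
  refine ⟨h.1, by rw [h.2.1, sub_self]; exact PosSemidef.zero, ?_⟩
  rw [h.2.1]
  have := contr_flip (Tm X)ᴴ (by rw [conjTranspose_conjTranspose, h.2.2, sub_self]; exact PosSemidef.zero)
  rwa [conjTranspose_conjTranspose] at this

lemma InK.tt {X : Fin 8 → Matrix ι ι ℂ} (h : InK X) : (1 - (Tm X)ᴴ * Tm X).PosSemidef := by
  have := h.2.1.add h.2.2
  rwa [show Gm X - (Tm X)ᴴ * Tm X + (1 - Gm X) = 1 - (Tm X)ᴴ * Tm X by abel] at this

lemma Tm_conj (Y : Fin 8 → Matrix κ κ ℂ) (V : Matrix κ ι ℂ) :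
    Vᴴ * Tm Y * dbl V = Tm (fun j => Vᴴ * Y j * V) := by
  simp [Tm, dbl, fromCols_mul_fromBlocks, Matrix.mul_add, Matrix.add_mul]

lemma Gm_conj (Y : Fin 8 → Matrix κ κ ℂ) (V : Matrix κ ι ℂ) :
    (dbl V)ᴴ * Gm Y * dbl V = Gm (fun j => Vᴴ * Y j * V) := by
  simp [Gm, dbl, fromBlocks_conjTranspose, fromBlocks_multiply, Matrix.mul_add, Matrix.add_mul,
    Matrix.mul_sub, Matrix.sub_mul]

lemma dbl_mul {μ : Type} [Fintype μ] (V : Matrix κ ι ℂ) (W : Matrix ι μ ℂ) :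
    dbl V * dbl W = dbl (V * W) := by
  simp [dbl, fromBlocks_multiply]

lemma dbl_conj (V : Matrix κ ι ℂ) : (dbl V)ᴴ = dbl Vᴴ := by
  simp [dbl, fromBlocks_conjTranspose]

lemma dbl_one : dbl (1 : Matrix ι ι ℂ) = 1 := by simp [dbl]

lemma Tm_sum {J : Type} [Fintype J] (Y : J → Fin 8 → Matrix ι ι ℂ) :
    Tm (fun j => ∑ i, Y i j) = ∑ i, Tm (Y i) := by
  ext a (b | b) <;> simp [Tm, Matrix.sum_apply, Finset.sum_add_distrib, Finset.mul_sum]

lemma Gm_sum {J : Type} [Fintype J] (Y : J → Fin 8 → Matrix ι ι ℂ) :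
    Gm (fun j => ∑ i, Y i j) = ∑ i, Gm (Y i) := by
  ext (a | a) (b | b) <;>
    simp [Gm, Matrix.sum_apply, Finset.sum_add_distrib, Finset.mul_sum, Finset.sum_sub_distrib]

lemma dbl_sum {J : Type} [Fintype J] (V : J → Matrix ι ι ℂ) :
    dbl (∑ i, V i) = ∑ i, dbl (V i) := by
  ext (a | a) (b | b) <;> simp [dbl, Matrix.sum_apply]

end

section comb
variable {ι : Type} [Fintype ι] [DecidableEq ι] {J : Type} [Fintype J] {κ : J → Type}
  [∀ i, Fintype (κ i)] [∀ i, DecidableEq (κ i)]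
  {X : Fin 8 → Matrix ι ι ℂ} {Y : ∀ i, Fin 8 → Matrix (κ i) (κ i) ℂ} {V : ∀ i, Matrix (κ i) ι ℂ}

lemma Tm_comb (hX : ∀ j, X j = ∑ i, (V i)ᴴ * Y i j * V i) :
    ∑ i, (V i)ᴴ * Tm (Y i) * dbl (V i) = Tm X := by
  rw [show X = fun j => ∑ i, (V i)ᴴ * Y i j * V i from funext hX, Tm_sum]
  simp only [Tm_conj]

lemma Gm_comb (hX : ∀ j, X j = ∑ i, (V i)ᴴ * Y i j * V i) :
    ∑ i, (dbl (V i))ᴴ * Gm (Y i) * dbl (V i) = Gm X := by
  rw [show X = fun j => ∑ i, (V i)ᴴ * Y i j * V i from funext hX, Gm_sum]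
  simp only [Gm_conj]

lemma dbl_comb (hV : ∑ i, (V i)ᴴ * V i = 1) : ∑ i, (dbl (V i))ᴴ * dbl (V i) = 1 := by
  simp only [dbl_conj, dbl_mul]
  rw [← dbl_sum, hV, dbl_one]

lemma D_id (hV : ∑ i, (V i)ᴴ * V i = 1) (hX : ∀ j, X j = ∑ i, (V i)ᴴ * Y i j * V i) :
    Gm X - (Tm X)ᴴ * Tm X =
      ∑ i, ((dbl (V i))ᴴ * (Gm (Y i) - (Tm (Y i))ᴴ * Tm (Y i)) * dbl (V i) +
        (Tm (Y i) * dbl (V i) - V i * Tm X)ᴴ * (Tm (Y i) * dbl (V i) - V i * Tm X)) := by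
  have h1 := Tm_comb hX
  have h2 := Gm_comb hX
  have h3 := congrArg conjTranspose h1
  simp only [conjTranspose_sum, conjTranspose_mul, conjTranspose_conjTranspose] at h3
  have e : ∀ i, ((dbl (V i))ᴴ * (Gm (Y i) - (Tm (Y i))ᴴ * Tm (Y i)) * dbl (V i) +
        (Tm (Y i) * dbl (V i) - V i * Tm X)ᴴ * (Tm (Y i) * dbl (V i) - V i * Tm X)) =
      (dbl (V i))ᴴ * Gm (Y i) * dbl (V i) - ((dbl (V i))ᴴ * ((Tm (Y i))ᴴ * V i)) * Tm X
        - (Tm X)ᴴ * ((V i)ᴴ * Tm (Y i) * dbl (V i)) + (Tm X)ᴴ * ((V i)ᴴ * V i) * Tm X := by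
    intro i
    simp only [conjTranspose_sub, conjTranspose_mul, Matrix.mul_sub, Matrix.sub_mul,
      Matrix.mul_assoc]
    abel
  simp only [e, Finset.sum_add_distrib, Finset.sum_sub_distrib, ← Matrix.sum_mul, ← Matrix.mul_sum,
    h1, h2, h3, hV, Matrix.mul_one]
  abel

lemma E_id (hV : ∑ i, (V i)ᴴ * V i = 1) (hX : ∀ j, X j = ∑ i, (V i)ᴴ * Y i j * V i) :
    1 - Tm X * (Tm X)ᴴ =
      ∑ i, ((V i)ᴴ * (1 - Tm (Y i) * (Tm (Y i))ᴴ) * V i +
        ((Tm (Y i))ᴴ * V i - dbl (V i) * (Tm X)ᴴ)ᴴ * ((Tm (Y i))ᴴ * V i - dbl (V i) * (Tm X)ᴴ)) := by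
  have h1 := Tm_comb hX
  have h2 := dbl_comb hV
  have h3 := congrArg conjTranspose h1
  simp only [conjTranspose_sum, conjTranspose_mul, conjTranspose_conjTranspose] at h3
  have e : ∀ i, ((V i)ᴴ * (1 - Tm (Y i) * (Tm (Y i))ᴴ) * V i +
        ((Tm (Y i))ᴴ * V i - dbl (V i) * (Tm X)ᴴ)ᴴ * ((Tm (Y i))ᴴ * V i - dbl (V i) * (Tm X)ᴴ)) =
      (V i)ᴴ * V i - ((V i)ᴴ * Tm (Y i) * dbl (V i)) * (Tm X)ᴴ
        - Tm X * ((dbl (V i))ᴴ * ((Tm (Y i))ᴴ * V i))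
        + Tm X * ((dbl (V i))ᴴ * dbl (V i)) * (Tm X)ᴴ := by
    intro i
    simp only [conjTranspose_sub, conjTranspose_mul, Matrix.mul_sub, Matrix.sub_mul,
      Matrix.mul_assoc, conjTranspose_conjTranspose, Matrix.mul_one, Matrix.one_mul]
    abel
  simp only [e, Finset.sum_add_distrib, Finset.sum_sub_distrib, ← Matrix.sum_mul, ← Matrix.mul_sum,
    h1, h2, h3, hV, Matrix.mul_one]
  abel

lemma comb_inK (hY : ∀ i, InK (Y i)) (hV : ∑ i, (V i)ᴴ * V i = 1)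
    (hX : ∀ j, X j = ∑ i, (V i)ᴴ * Y i j * V i) : InK X := by
  refine ⟨fun j => ?_, ?_, ?_⟩
  · rw [hX j]
    unfold IsHermitian
    rw [conjTranspose_sum]
    exact Finset.sum_congr rfl (fun i _ => isHermitian_conjTranspose_mul_mul _ ((hY i).1 j))
  · rw [D_id hV hX]
    exact posSemidef_sum _ (fun i _ => ((hY i).2.1.conjTranspose_mul_mul_same _).add
      (posSemidef_conjTranspose_mul_self _))
  · rw [← Gm_comb hX, ← dbl_comb hV, ← Finset.sum_sub_distrib]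
    refine posSemidef_sum _ (fun i _ => ?_)
    have := (hY i).2.2.conjTranspose_mul_mul_same (dbl (V i))
    rwa [Matrix.mul_sub, Matrix.sub_mul, Matrix.mul_one] at this

lemma psd_add_zero {μ : Type} [Fintype μ] {P Q : Matrix μ μ ℂ} (hP : P.PosSemidef)
    (hQ : Q.PosSemidef) (h : P + Q = 0) : P = 0 ∧ Q = 0 := by
  have := psd_sum_zero (I := Fin 2) ![P, Q] (by intro i; fin_cases i <;> simpa) (by simpa)
  exact ⟨this 0, this 1⟩

lemma split_re {μ ν : Type} [Fintype μ] [Fintype ν] {A B : Matrix μ μ ℂ} {C D : Matrix ν ν ℂ}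
    {U : Matrix μ ν ℂ} (h1 : (A + I • B) * U = U * (C + I • D))
    (h2 : (A - I • B) * U = U * (C - I • D)) : A * U = U * C ∧ B * U = U * D := by
  simp only [Matrix.add_mul, Matrix.mul_add, Matrix.sub_mul, Matrix.mul_sub, Matrix.smul_mul,
    Matrix.mul_smul] at h1 h2
  constructor
  · ext a b
    have e1 := congrFun (congrFun h1 a) b
    have e2 := congrFun (congrFun h2 a) b
    simp only [Matrix.add_apply, Matrix.sub_apply, Matrix.smul_apply, smul_eq_mul] at e1 e2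
    linear_combination (e1 + e2) / 2
  · ext a b
    have e1 := congrFun (congrFun h1 a) b
    have e2 := congrFun (congrFun h2 a) b
    simp only [Matrix.add_apply, Matrix.sub_apply, Matrix.smul_apply, smul_eq_mul] at e1 e2
    linear_combination (-I / 2) * (e1 - e2) + ((B * U) a b - (U * D) a b) * I_mul_I

lemma herm_conj {μ : Type} {A B : Matrix μ μ ℂ} (hA : A.IsHermitian) (hB : B.IsHermitian) :
    (A + I • B)ᴴ = A - I • B := by
  rw [conjTranspose_add, conjTranspose_smul, hA.eq, hB.eq]; simp [sub_eq_add_neg]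

lemma intertwine (hS : InS X) (hY : ∀ i, InK (Y i)) (hV : ∑ i, (V i)ᴴ * V i = 1)
    (hX : ∀ j, X j = ∑ i, (V i)ᴴ * Y i j * V i) (i : J) (j : Fin 8) :
    Y i j * V i = V i * X j := by
  have hD := D_id hV hX
  have hE := E_id hV hX
  rw [hS.2.1, sub_self] at hD
  rw [hS.2.2, sub_self] at hE
  have a1 := fun i => (hY i).2.1.conjTranspose_mul_mul_same (dbl (V i))
  have a2 := fun i => (contr_flip _ (hY i).tt).conjTranspose_mul_mul_same (V i)
  obtain ⟨d1, d2⟩ := psd_add_zero (a1 i) (posSemidef_conjTranspose_mul_self _)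
    (psd_sum_zero _ (fun i => (a1 i).add (posSemidef_conjTranspose_mul_self _)) hD.symm i)
  obtain ⟨-, e2⟩ := psd_add_zero (a2 i) (posSemidef_conjTranspose_mul_self _)
    (psd_sum_zero _ (fun i => (a2 i).add (posSemidef_conjTranspose_mul_self _)) hE.symm i)
  rw [conjTranspose_mul_self_eq_zero, sub_eq_zero] at d2 e2
  have d3 := psd_kill (hY i).2.1 _ d1
  rw [Matrix.sub_mul, sub_eq_zero, Matrix.mul_assoc, d2, ← Matrix.mul_assoc, e2, Matrix.mul_assoc,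
    ← hS.2.1] at d3
  have hy := (hY i).1
  have hx := hS.1
  simp only [Tm, dbl, fromCols_mul_fromBlocks, mul_fromCols, Matrix.mul_zero, add_zero, zero_add,
    fromCols_ext_iff] at d2
  simp only [Tm, dbl, conjTranspose_fromCols_eq_fromRows_conjTranspose, fromRows_mul,
    fromBlocks_mul_fromRows, Matrix.zero_mul, add_zero, zero_add, fromRows_ext_iff,
    herm_conj (hy _) (hy _), herm_conj (hx _) (hx _)] at e2
  simp only [Gm, dbl, fromBlocks_multiply, Matrix.zero_mul, Matrix.mul_zero, add_zero, zero_add,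
    fromBlocks_inj] at d3
  obtain ⟨f0, f1⟩ := split_re d2.1 e2.1
  obtain ⟨f2, f3⟩ := split_re d2.2 e2.2
  obtain ⟨f6, f7⟩ := split_re d3.2.1 d3.2.2.1
  fin_cases j
  exacts [f0, f1, f2, f3, d3.1, d3.2.2.2, f6, f7]

end comb

end Pool.Agent.H.MP_c7d282_an
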