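import Pool.Agent.H.MP_c7d282_an.B

set_option autoImplicit false
set_option linter.unusedSectionVars false

namespace Pool.Agent.H.MP_c7d282_an

open Matrix Complex
open scoped ComplexOrder MatrixOrder

section
variable {ι κ : Type} [Fintype ι] [DecidableEq ι] [Fintype κ] [DecidableEq κ]

noncomputable def reM (A : Matrix ι ι ℂ) : Matrix ι ι ℂ := (1 / 2 : ℂ) • (A + Aᴴ)
noncomputable def imM (A : Matrix ι ι ℂ) : Matrix ι ι ℂ := (-I / 2 : ℂ) • (A - Aᴴ)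

lemma reM_herm (A : Matrix ι ι ℂ) : (reM A).IsHermitian := by
  ext a b; simp [reM]; ring

lemma imM_herm (A : Matrix ι ι ℂ) : (imM A).IsHermitian := by
  ext a b; simp [imM]; ring

lemma re_add_im (A : Matrix ι ι ℂ) : reM A + I • imM A = A := by
  ext a b; simp [reM, imM]
  linear_combination (-(A a b - (starRingEnd ℂ) (A b a)) / 2) * I_mul_I

lemma re_sub_im (A : Matrix ι ι ℂ) : reM A - I • imM A = Aᴴ := by
  ext a b; simp [reM, imM]
  linear_combination ((A a b - (starRingEnd ℂ) (A b a)) / 2) * I_mul_I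

lemma exists_of (T : Matrix ι (ι ⊕ ι) ℂ) (G : Matrix (ι ⊕ ι) (ι ⊕ ι) ℂ) (hG : G.IsHermitian) :
    ∃ X : Fin 8 → Matrix ι ι ℂ, (∀ j, (X j).IsHermitian) ∧ Tm X = T ∧ Gm X = G := by
  rw [← fromBlocks_toBlocks G, isHermitian_fromBlocks_iff] at hG
  refine ⟨![reM T.toCols₁, imM T.toCols₁, reM T.toCols₂, imM T.toCols₂, G.toBlocks₁₁, G.toBlocks₂₂,
    reM G.toBlocks₁₂, imM G.toBlocks₁₂], ?_, ?_, ?_⟩
  · intro j
    fin_cases j
    exacts [reM_herm _, imM_herm _, reM_herm _, imM_herm _, hG.1, hG.2.2.2, reM_herm _, imM_herm _]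
  · show fromCols (reM T.toCols₁ + I • imM T.toCols₁) (reM T.toCols₂ + I • imM T.toCols₂) = T
    rw [re_add_im, re_add_im, fromCols_toCols]
  · show fromBlocks G.toBlocks₁₁ (reM G.toBlocks₁₂ + I • imM G.toBlocks₁₂)
      (reM G.toBlocks₁₂ - I • imM G.toBlocks₁₂) G.toBlocks₂₂ = G
    rw [re_add_im, re_sub_im, hG.2.1, fromBlocks_toBlocks]

lemma herm_ext {A B C D : Matrix ι ι ℂ} (hA : A.IsHermitian) (hB : B.IsHermitian)
    (hC : C.IsHermitian) (hD : D.IsHermitian) (h : A + I • B = C + I • D) : A = C ∧ B = D := by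
  have h' := congrArg conjTranspose h
  rw [herm_conj hA hB, herm_conj hC hD] at h'
  have := split_re (U := (1 : Matrix ι ι ℂ)) (A := A) (B := B) (C := C) (D := D)
    (by simpa using h) (by simpa using h')
  simpa using this

lemma ext_T {X Y : Fin 8 → Matrix ι ι ℂ} (hX : ∀ j, (X j).IsHermitian) (hY : ∀ j, (Y j).IsHermitian)
    (h : Tm X = Tm Y) : X 0 = Y 0 ∧ X 1 = Y 1 ∧ X 2 = Y 2 ∧ X 3 = Y 3 := by
  simp only [Tm, fromCols_ext_iff] at h
  obtain ⟨a, b⟩ := herm_ext (hX _) (hX _) (hY _) (hY _) h.1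
  obtain ⟨c, d⟩ := herm_ext (hX _) (hX _) (hY _) (hY _) h.2
  exact ⟨a, b, c, d⟩

lemma ext_TG {X Y : Fin 8 → Matrix ι ι ℂ} (hX : ∀ j, (X j).IsHermitian) (hY : ∀ j, (Y j).IsHermitian)
    (h : Tm X = Tm Y) (h' : Gm X = Gm Y) (j : Fin 8) : X j = Y j := by
  obtain ⟨a, b, c, d⟩ := ext_T hX hY h
  simp only [Gm, fromBlocks_inj] at h'
  obtain ⟨e, f⟩ := herm_ext (hX _) (hX _) (hY _) (hY _) h'.2.1
  fin_cases j
  exacts [a, b, c, d, h'.1, h'.2.2.2, e, f]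

lemma dilate {X : Fin 8 → Matrix ι ι ℂ} (h : InK X) :
    ∃ (Y : Fin 8 → Matrix (ι ⊕ (ι ⊕ ι)) (ι ⊕ (ι ⊕ ι)) ℂ) (V : Matrix (ι ⊕ (ι ⊕ ι)) ι ℂ),
      InS Y ∧ Vᴴ * V = 1 ∧ ∀ j, X j = Vᴴ * Y j * V := by
  obtain ⟨C, hC⟩ := psd_sq h.2.1
  obtain ⟨A, hA⟩ : ∃ A : Matrix (ι ⊕ (ι ⊕ ι)) (ι ⊕ ι) ℂ, A = fromRows (Tm X) C := ⟨_, rfl⟩
  have hAA : Aᴴ * A = Gm X := by
    rw [hA, conjTranspose_fromRows_eq_fromCols_conjTranspose, fromCols_mul_fromRows, ← hC]; abel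
  obtain ⟨F', hF'⟩ := psd_sq (contr_flip A (hAA ▸ h.2.2))
  obtain ⟨F, hF⟩ : ∃ F, F = F'ᴴ := ⟨_, rfl⟩
  have hFF : A * Aᴴ + F * Fᴴ = 1 := by
    rw [hF, conjTranspose_conjTranspose, ← hF']; abel
  obtain ⟨T, hT⟩ : ∃ T : Matrix (ι ⊕ (ι ⊕ ι)) ((ι ⊕ (ι ⊕ ι)) ⊕ (ι ⊕ (ι ⊕ ι))) ℂ,
      T = fromCols (fromCols A.toCols₁ F.toCols₂)
        (fromCols A.toCols₂ (fromCols F.toCols₁ (0 : Matrix _ ι ℂ))) := ⟨_, rfl⟩
  obtain ⟨V, hV⟩ : ∃ V : Matrix (ι ⊕ (ι ⊕ ι)) ι ℂ, V = fromRows 1 0 := ⟨_, rfl⟩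
  have hVV : Vᴴ * V = 1 := by
    rw [hV, conjTranspose_fromRows_eq_fromCols_conjTranspose, fromCols_mul_fromRows]; simp
  have hTT : T * Tᴴ = 1 := by
    rw [← hFF, hT]
    conv_rhs => rw [← fromCols_toCols A, ← fromCols_toCols F]
    simp only [conjTranspose_fromCols_eq_fromRows_conjTranspose, fromCols_mul_fromRows,
      Matrix.zero_mul, add_zero]
    abel
  have hTV : T * dbl V = A := by
    rw [hT, hV, dbl, fromCols_mul_fromBlocks]
    simp [fromCols_mul_fromRows]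
  obtain ⟨Y, hY, hY1, hY2⟩ := exists_of T (Tᴴ * T) (isHermitian_conjTranspose_mul_self T)
  refine ⟨Y, V, ⟨hY, by rw [hY1, hY2], by rw [hY1, hTT]⟩, hVV, ?_⟩
  refine ext_TG h.1 (fun j => isHermitian_conjTranspose_mul_mul _ (hY j)) ?_ ?_
  · rw [← Tm_conj, hY1, Matrix.mul_assoc, hTV, hV, hA,
      conjTranspose_fromRows_eq_fromCols_conjTranspose, fromCols_mul_fromRows]; simp
  · rw [← Gm_conj, hY2, ← hAA, ← hTV, conjTranspose_mul]; simp only [Matrix.mul_assoc]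

lemma InS.red {X : Fin 8 → Matrix ι ι ℂ} (h : InS X) (U : Matrix ι κ ℂ) (hU : Uᴴ * U = 1)
    (hr : ∀ j, X j * U = U * (Uᴴ * X j * U)) : InS (fun j => Uᴴ * X j * U) := by
  have hZ : ∀ j, (Uᴴ * X j * U).IsHermitian := fun j => isHermitian_conjTranspose_mul_mul _ (h.1 j)
  obtain ⟨Z, hZe⟩ : ∃ Z : Fin 8 → Matrix κ κ ℂ, Z = fun j => Uᴴ * X j * U := ⟨_, rfl⟩
  have hZ' : ∀ j, (Z j).IsHermitian := by rw [hZe]; exact hZ
  have hr' : ∀ j, X j * U = U * Z j := by rw [hZe]; exact hr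
  have h1 : Tm X * dbl U = U * Tm Z := by
    simp [Tm, dbl, fromCols_mul_fromBlocks, Matrix.mul_add, Matrix.add_mul, hr']
  have h2 : (Tm X)ᴴ * U = dbl U * (Tm Z)ᴴ := by
    simp only [Tm, dbl, conjTranspose_fromCols_eq_fromRows_conjTranspose, fromRows_mul,
      fromBlocks_mul_fromRows, Matrix.zero_mul, add_zero, zero_add,
      herm_conj (h.1 _) (h.1 _), herm_conj (hZ' _) (hZ' _), Matrix.sub_mul, Matrix.mul_sub,
      Matrix.smul_mul, Matrix.mul_smul, hr', smul_zero, sub_zero]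
  have h3 : Gm Z = (dbl U)ᴴ * Gm X * dbl U := by rw [Gm_conj, hZe]
  rw [← hZe]
  refine ⟨hZ', ?_, ?_⟩
  · have : (dbl U)ᴴ * ((Tm X)ᴴ * Tm X) * dbl U = (Tm X * dbl U)ᴴ * (Tm X * dbl U) := by
      simp only [conjTranspose_mul, Matrix.mul_assoc]
    rw [h3, h.2.1, this, h1, conjTranspose_mul, Matrix.mul_assoc, ← Matrix.mul_assoc Uᴴ, hU,
      Matrix.one_mul]
  · have e : (dbl U)ᴴ * dbl U = 1 := by rw [dbl_conj, dbl_mul, hU, dbl_one]
    have : Tm Z * (Tm Z)ᴴ = (dbl U * (Tm Z)ᴴ)ᴴ * (dbl U * (Tm Z)ᴴ) := by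
      rw [conjTranspose_mul, conjTranspose_conjTranspose, Matrix.mul_assoc,
        ← Matrix.mul_assoc (dbl U)ᴴ, e, Matrix.one_mul]
    rw [this, ← h2, conjTranspose_mul, conjTranspose_conjTranspose, Matrix.mul_assoc,
      ← Matrix.mul_assoc (Tm X), h.2.2, Matrix.one_mul, hU]

lemma InK.conj {X : Fin 8 → Matrix ι ι ℂ} (h : InK X) (U : Matrix ι κ ℂ) (hU : Uᴴ * U = 1) :
    InK (fun j => Uᴴ * X j * U) :=
  comb_inK (J := Unit) (κ := fun _ => ι) (Y := fun _ => X) (V := fun _ => U) (fun _ => h)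
    (by simpa using hU) (by simp)

lemma psd_entry {P : Matrix ι ι ℂ} (h : P.PosSemidef) (h1 : (1 - P).PosSemidef) (a b : ι) :
    ‖P a b‖ ≤ 1 := by
  obtain ⟨Q, rfl⟩ := psd_sq h
  have hd : ∀ a, ∑ k, ‖Q k a‖ ^ 2 ≤ 1 := by
    intro a
    have := (Complex.le_def.mp (h1.diag_nonneg (i := a))).1
    simp only [Matrix.sub_apply, one_apply_eq, Matrix.mul_apply, conjTranspose_apply, sub_re, one_re,
      zero_re, re_sum, star_def, Complex.conj_mul', ← ofReal_pow, ofReal_re] at this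
    linarith
  rw [Matrix.mul_apply]
  refine (norm_sum_le _ _).trans ?_
  have : ∀ k, ‖Qᴴ a k * Q k b‖ ≤ (‖Q k a‖ ^ 2 + ‖Q k b‖ ^ 2) / 2 := by
    intro k
    rw [norm_mul, conjTranspose_apply, norm_star]
    nlinarith [sq_nonneg (‖Q k a‖ - ‖Q k b‖)]
  refine (Finset.sum_le_sum (fun k _ => this k)).trans ?_
  rw [← Finset.sum_div, Finset.sum_add_distrib]
  linarith [hd a, hd b]

lemma contr_entry (T : Matrix ι κ ℂ) (h1 : (1 - Tᴴ * T).PosSemidef) (a : ι) (b : κ) :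
    ‖T a b‖ ≤ 1 := by
  have := (Complex.le_def.mp (h1.diag_nonneg (i := b))).1
  simp only [Matrix.sub_apply, one_apply_eq, Matrix.mul_apply, conjTranspose_apply, sub_re, one_re,
    zero_re, re_sum, star_def, Complex.conj_mul', ← ofReal_pow, ofReal_re] at this
  have h2 := Finset.single_le_sum (f := fun k => ‖T k b‖ ^ 2) (fun k _ => by positivity)
    (Finset.mem_univ a)
  have h3 : ‖T a b‖ ^ 2 ≤ 1 := by linarith
  exact (sq_le_one_iff₀ (norm_nonneg _)).mp h3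

lemma part_bound {A B : Matrix ι ι ℂ} (hA : A.IsHermitian) (hB : B.IsHermitian)
    (h : ∀ a b, ‖(A + I • B) a b‖ ≤ 1) : (∀ a b, ‖A a b‖ ≤ 1) ∧ ∀ a b, ‖B a b‖ ≤ 1 := by
  obtain ⟨e1, e2⟩ := herm_ext hA hB (reM_herm (A + I • B)) (imM_herm (A + I • B))
    (re_add_im _).symm
  constructor
  · intro a b
    rw [e1]
    simp only [reM, Matrix.smul_apply, smul_eq_mul, norm_mul]
    rw [Matrix.add_apply, conjTranspose_apply]
    have := norm_add_le ((A + I • B) a b) (star ((A + I • B) b a))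
    rw [norm_star] at this
    have h2 : ‖(1 / 2 : ℂ)‖ = 1 / 2 := by simp
    rw [h2]; linarith [h a b, h b a]
  · intro a b
    rw [e2]
    simp only [imM, Matrix.smul_apply, smul_eq_mul, norm_mul]
    rw [Matrix.sub_apply, conjTranspose_apply]
    have := norm_sub_le ((A + I • B) a b) (star ((A + I • B) b a))
    rw [norm_star] at this
    have h2 : ‖(-I / 2 : ℂ)‖ = 1 / 2 := by simp
    rw [h2]; linarith [h a b, h b a]

lemma InK.bound {X : Fin 8 → Matrix ι ι ℂ} (h : InK X) (j : Fin 8) (a b : ι) : ‖X j a b‖ ≤ 1 := by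
  have hT := contr_entry _ h.tt
  have hG0 : (Gm X).PosSemidef := by
    have := h.2.1.add (posSemidef_conjTranspose_mul_self (Tm X))
    rwa [sub_add_cancel] at this
  have hG := psd_entry hG0 h.2.2
  obtain ⟨b0, b1⟩ := part_bound (h.1 0) (h.1 1) (fun a b => hT a (Sum.inl b))
  obtain ⟨b2, b3⟩ := part_bound (h.1 2) (h.1 3) (fun a b => hT a (Sum.inr b))
  obtain ⟨b6, b7⟩ := part_bound (h.1 6) (h.1 7) (fun a b => hG (Sum.inl a) (Sum.inr b))
  fin_cases j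
  exacts [b0 a b, b1 a b, b2 a b, b3 a b, hG (Sum.inl a) (Sum.inl b), hG (Sum.inr a) (Sum.inr b),
    b6 a b, b7 a b]

lemma closed_psd : IsClosed {P : Matrix ι ι ℂ | P.PosSemidef} := by
  have : {P : Matrix ι ι ℂ | P.PosSemidef} =
      {P | Pᴴ = P} ∩ ⋂ x : ι → ℂ, {P | 0 ≤ star x ⬝ᵥ (P *ᵥ x)} := by
    ext P
    simp only [Set.mem_ofPred_eq, posSemidef_iff_dotProduct_mulVec, Set.mem_inter_iff, Set.mem_iInter]
    rfl
  rw [this]
  refine (isClosed_eq (by fun_prop) continuous_id).inter (isClosed_iInter fun x => ?_)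
  exact isClosed_le continuous_const (by fun_prop)

lemma cont_T : Continuous (fun X : Fin 8 → Matrix ι ι ℂ => Tm X) := by
  refine continuous_matrix fun a b => ?_
  rcases b with b | b <;> simp only [Tm, fromCols_apply_inl, fromCols_apply_inr, Matrix.add_apply,
    Matrix.smul_apply] <;> fun_prop

lemma cont_G : Continuous (fun X : Fin 8 → Matrix ι ι ℂ => Gm X) := by
  refine continuous_matrix fun a b => ?_
  rcases a with a | a <;> rcases b with b | b <;>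
    simp only [Gm, fromBlocks_apply₁₁, fromBlocks_apply₁₂, fromBlocks_apply₂₁, fromBlocks_apply₂₂,
      Matrix.add_apply, Matrix.sub_apply, Matrix.smul_apply] <;> fun_prop

lemma closed_K : IsClosed {X : Fin 8 → Matrix ι ι ℂ | InK X} := by
  have : {X : Fin 8 → Matrix ι ι ℂ | InK X} = (⋂ j, {X | (X j)ᴴ = X j}) ∩
      ((fun X => Gm X - (Tm X)ᴴ * Tm X) ⁻¹' {P | P.PosSemidef} ∩
        (fun X => 1 - Gm X) ⁻¹' {P | P.PosSemidef}) := by
    ext X
    simp only [InK, Set.mem_ofPred_eq, Set.mem_inter_iff, Set.mem_iInter, Set.mem_preimage]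
    rfl
  rw [this]
  have h1 := @cont_T ι _ _
  have h2 := @cont_G ι _ _
  refine (isClosed_iInter fun j => isClosed_eq (by fun_prop) (by fun_prop)).inter
    ((closed_psd.preimage (h2.sub (h1.matrix_conjTranspose.matrix_mul h1))).inter
      (closed_psd.preimage (continuous_const.sub h2)))

end

end Pool.Agent.H.MP_c7d282_an
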