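import Pool.Agent.H.MP_c7d282_an.C

set_option autoImplicit false
set_option linter.unusedSectionVars false

namespace Pool.Agent.H.MP_c7d282_an

open Matrix Complex
open scoped ComplexOrder MatrixOrder

abbrev Tup (g : ℕ) (n : ℕ+) := Fin g → Matrix (Fin n) (Fin n) ℂ

abbrev Gr (g : ℕ) := ∀ n : ℕ+, Set (Tup g n)

def IsComb {g : ℕ} {n : ℕ+} (X : Tup g n) {k : ℕ} (m : Fin k → ℕ+) (Y : ∀ i, Tup g (m i))
    (V : ∀ i, Matrix (Fin (m i)) (Fin n) ℂ) : Prop :=
  ∑ i, (V i)ᴴ * V i = 1 ∧ ∀ j, X j = ∑ i, (V i)ᴴ * Y i j * V i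

def mconv {g : ℕ} (S : Gr g) : Gr g := fun n =>
  {X | ∃ (k : ℕ) (m : Fin k → ℕ+) (Y : ∀ i, Tup g (m i)) (V : ∀ i, Matrix (Fin (m i)) (Fin n) ℂ),
    (∀ i, Y i ∈ S (m i)) ∧ IsComb X m Y V}

def UEq {g : ℕ} {α β : Type} [Fintype α] [DecidableEq α] [Fintype β] [DecidableEq β]
    (X : Fin g → Matrix α α ℂ) (Y : Fin g → Matrix β β ℂ) : Prop :=
  ∃ U : Matrix α β ℂ, Uᴴ * U = 1 ∧ U * Uᴴ = 1 ∧ ∀ j, Y j = Uᴴ * X j * U

def freeExt {g : ℕ} (K : Gr g) : Gr g := fun n =>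
  {X | X ∈ K n ∧ ∀ (k : ℕ) (m : Fin k → ℕ+) (Y : ∀ i, Tup g (m i))
    (V : ∀ i, Matrix (Fin (m i)) (Fin n) ℂ), (∀ i, Y i ∈ K (m i)) → (∀ i, V i ≠ 0) →
    IsComb X m Y V → ∀ i, (m i = n ∧ UEq X (Y i)) ∨
      (n < m i ∧ ∃ p : ℕ+, ∃ Z ∈ K p, UEq (fun j => fromBlocks (X j) 0 0 (Z j)) (Y i))}

def proj {g h : ℕ} (hg : h < g) (K : Gr g) : Gr h := fun n =>
  {X | ∃ Y ∈ K n, ∀ j, X j = Y (Fin.castLE hg.le j)}

def KK : Gr 8 := fun _ => {X | InK X}

lemma irr_ext {n : ℕ+} {X : Tup 8 n} (hS : InS X)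
    (hirr : ∀ M : Matrix (Fin n) (Fin n) ℂ, M.IsHermitian → (∀ j, M * X j = X j * M) →
      ∃ c : ℝ, M = (c : ℂ) • 1) : X ∈ freeExt KK n := by
  refine ⟨hS.inK, fun k m Y V hY hV0 hc i => ?_⟩
  have hI := intertwine hS hY hc.1 hc.2 i
  have hYi : InK (Y i) := hY i
  obtain ⟨c, hcM⟩ := hirr ((V i)ᴴ * V i) (isHermitian_conjTranspose_mul_self _) (by
    intro j
    have h1 := congrArg conjTranspose (hI j)
    rw [conjTranspose_mul, conjTranspose_mul, (hYi.1 j).eq, (hS.1 j).eq] at h1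
    rw [Matrix.mul_assoc, ← hI j, ← Matrix.mul_assoc, h1, Matrix.mul_assoc])
  have hc0 : 0 < c := by
    have h1 : (0 : ℂ) ≤ ((V i)ᴴ * V i) ⟨0, n.2⟩ ⟨0, n.2⟩ :=
      (posSemidef_conjTranspose_mul_self (V i)).diag_nonneg
    rw [hcM] at h1
    simp only [Matrix.smul_apply, one_apply_eq, smul_eq_mul, mul_one] at h1
    have h2 : 0 ≤ c := by exact_mod_cast h1
    refine lt_of_le_of_ne h2 (fun h => hV0 i ?_)
    rw [← conjTranspose_mul_self_eq_zero, hcM, ← h]; simp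
  obtain ⟨U, hU⟩ : ∃ U, U = (((Real.sqrt c)⁻¹ : ℝ) : ℂ) • V i := ⟨_, rfl⟩
  have hUU : Uᴴ * U = 1 := by
    rw [hU, conjTranspose_smul, Matrix.smul_mul, Matrix.mul_smul, hcM, smul_smul, smul_smul]
    have h1 : star (((Real.sqrt c)⁻¹ : ℝ) : ℂ) * (((Real.sqrt c)⁻¹ : ℝ) : ℂ) * (c : ℂ) = 1 := by
      rw [star_def, conj_ofReal, ← ofReal_mul, ← ofReal_mul, ← mul_inv, Real.mul_self_sqrt hc0.le,
        inv_mul_cancel₀ hc0.ne', ofReal_one]
    rw [h1, one_smul]
  have hUI : ∀ j, Y i j * U = U * X j := by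
    intro j; rw [hU, Matrix.mul_smul, Matrix.smul_mul, hI j]
  have hUI' : ∀ j, Uᴴ * Y i j = X j * Uᴴ := by
    intro j
    have h1 := congrArg conjTranspose (hUI j)
    rwa [conjTranspose_mul, conjTranspose_mul, (hYi.1 j).eq, (hS.1 j).eq] at h1
  obtain ⟨a, W, w1, w2, w3⟩ := complete U hUU
  have hcard := card_add U W hUU w1 w3
  simp only [Fintype.card_fin] at hcard
  rcases Nat.eq_zero_or_pos a with ha | ha
  · left
    subst ha
    have w4 : W * Wᴴ = 0 := by ext x y; simp [Matrix.mul_apply]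
    rw [w4, add_zero] at w3
    refine ⟨PNat.eq (by omega), Uᴴ, by simpa using w3, by simpa using hUU, fun j => ?_⟩
    rw [conjTranspose_conjTranspose, ← hUI j, Matrix.mul_assoc, w3, Matrix.mul_one]
  · right
    obtain ⟨p, rfl⟩ : ∃ p : ℕ+, a = p := ⟨⟨a, ha⟩, rfl⟩
    refine ⟨(PNat.coe_lt_coe _ _).mp (by omega), p, fun j => Wᴴ * Y i j * W, hYi.conj W w1,
      fromRows Uᴴ Wᴴ, ?_, ?_, fun j => ?_⟩
    · rw [conjTranspose_fromRows_eq_fromCols_conjTranspose, fromCols_mul_fromRows]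
      simpa using w3
    · have w5 : Wᴴ * U = 0 := by simpa using congrArg conjTranspose w2
      rw [conjTranspose_fromRows_eq_fromCols_conjTranspose, fromRows_mul_fromCols]
      simp only [conjTranspose_conjTranspose, hUU, w1, w2, w5]
      exact fromBlocks_one
    · rw [conjTranspose_fromRows_eq_fromCols_conjTranspose, fromCols_mul_fromBlocks,
        fromCols_mul_fromRows]
      simp only [conjTranspose_conjTranspose, Matrix.mul_zero, add_zero, zero_add]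
      have e1 : W * Wᴴ = 1 - U * Uᴴ := by rw [← w3]; abel
      have e2 : W * (Wᴴ * Y i j * W) * Wᴴ = (W * Wᴴ) * Y i j * (W * Wᴴ) := by
        simp only [Matrix.mul_assoc]
      have e3 : U * Uᴴ * Y i j = U * X j * Uᴴ := by rw [Matrix.mul_assoc, hUI', Matrix.mul_assoc]
      have e4 : Y i j * (U * Uᴴ) = U * X j * Uᴴ := by rw [← Matrix.mul_assoc, hUI]
      have e5 : U * X j * Uᴴ * (U * Uᴴ) = U * X j * Uᴴ := by
        rw [Matrix.mul_assoc, ← Matrix.mul_assoc Uᴴ, hUU, Matrix.one_mul]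
      rw [e2, e1, Matrix.sub_mul, Matrix.one_mul, e3, Matrix.mul_sub, Matrix.mul_one,
        Matrix.sub_mul, e4, e5]
      abel

def Hull {ι : Type} [Fintype ι] [DecidableEq ι] (X : Fin 8 → Matrix ι ι ℂ) : Prop :=
  ∃ (J : Type) (_ : Fintype J) (m : J → ℕ+) (Y : ∀ i, Tup 8 (m i))
    (V : ∀ i, Matrix (Fin (m i)) ι ℂ), (∀ i, Y i ∈ freeExt KK (m i)) ∧
    ∑ i, (V i)ᴴ * V i = 1 ∧ ∀ j, X j = ∑ i, (V i)ᴴ * Y i j * V i

section
variable {ι α β : Type} [Fintype ι] [DecidableEq ι] [Fintype α] [DecidableEq α]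
  [Fintype β] [DecidableEq β]

lemma Hull.one {Z : Fin 8 → Matrix α α ℂ} (h : Hull Z) {X : Fin 8 → Matrix ι ι ℂ}
    (U : Matrix α ι ℂ) (hU : Uᴴ * U = 1) (hX : ∀ j, X j = Uᴴ * Z j * U) : Hull X := by
  obtain ⟨J, _, m, Y, V, h1, h2, h3⟩ := h
  refine ⟨J, inferInstance, m, Y, fun i => V i * U, h1, ?_, fun j => ?_⟩
  · have : ∀ i, (V i * U)ᴴ * (V i * U) = Uᴴ * ((V i)ᴴ * V i) * U := by
      intro i; simp only [conjTranspose_mul, Matrix.mul_assoc]
    simp only [this]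
    rw [← Matrix.sum_mul, ← Matrix.mul_sum, h2, Matrix.mul_one, hU]
  · rw [hX, h3, Matrix.mul_sum, Matrix.sum_mul]
    refine Finset.sum_congr rfl fun i _ => ?_
    simp only [conjTranspose_mul, Matrix.mul_assoc]

lemma Hull.two {Z : Fin 8 → Matrix α α ℂ} (h : Hull Z) {Z' : Fin 8 → Matrix β β ℂ} (h' : Hull Z')
    {X : Fin 8 → Matrix ι ι ℂ} (U : Matrix α ι ℂ) (W : Matrix β ι ℂ) (hU : Uᴴ * U + Wᴴ * W = 1)
    (hX : ∀ j, X j = Uᴴ * Z j * U + Wᴴ * Z' j * W) : Hull X := by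
  obtain ⟨J, _, m, Y, V, h1, h2, h3⟩ := h
  obtain ⟨J', _, m', Y', V', h1', h2', h3'⟩ := h'
  refine ⟨J ⊕ J', inferInstance, Sum.elim m m',
    fun i => match i with | .inl i => Y i | .inr i => Y' i,
    fun i => match i with | .inl i => V i * U | .inr i => V' i * W, ?_, ?_, fun j => ?_⟩
  · rintro (i | i)
    exacts [h1 i, h1' i]
  · rw [Fintype.sum_sum_type, ← hU]
    have e : ∀ i, (V i * U)ᴴ * (V i * U) = Uᴴ * ((V i)ᴴ * V i) * U := by
      intro i; simp only [conjTranspose_mul, Matrix.mul_assoc]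
    have e' : ∀ i, (V' i * W)ᴴ * (V' i * W) = Wᴴ * ((V' i)ᴴ * V' i) * W := by
      intro i; simp only [conjTranspose_mul, Matrix.mul_assoc]
    congr 1
    · refine (Finset.sum_congr rfl fun i _ => e i).trans ?_
      rw [← Matrix.sum_mul, ← Matrix.mul_sum, h2, Matrix.mul_one]
    · refine (Finset.sum_congr rfl fun i _ => e' i).trans ?_
      rw [← Matrix.sum_mul, ← Matrix.mul_sum, h2', Matrix.mul_one]
  · rw [Fintype.sum_sum_type, hX]
    congr 1
    · rw [h3, Matrix.mul_sum, Matrix.sum_mul]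
      refine Finset.sum_congr rfl fun i _ => ?_
      show _ = (V i * U)ᴴ * Y i j * (V i * U)
      simp only [conjTranspose_mul, Matrix.mul_assoc]
    · rw [h3', Matrix.mul_sum, Matrix.sum_mul]
      refine Finset.sum_congr rfl fun i _ => ?_
      show _ = (V' i * W)ᴴ * Y' i j * (V' i * W)
      simp only [conjTranspose_mul, Matrix.mul_assoc]

end

lemma hull_S (N : ℕ) : ∀ (n : ℕ) (_ : 0 < n), n ≤ N → ∀ X : Fin 8 → Matrix (Fin n) (Fin n) ℂ,
    InS X → Hull X := by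
  induction N with
  | zero => intro n h1 h2; omega
  | succ N ih =>
    intro n hn hN X hS
    by_cases hirr : ∀ M : Matrix (Fin n) (Fin n) ℂ, M.IsHermitian → (∀ j, M * X j = X j * M) →
      ∃ c : ℝ, M = (c : ℂ) • 1
    · obtain ⟨p, rfl⟩ : ∃ p : ℕ+, n = p := ⟨⟨n, hn⟩, rfl⟩
      exact ⟨Unit, inferInstance, fun _ => p, fun _ => X, fun _ => (1 : Matrix (Fin p) (Fin p) ℂ),
        fun _ => irr_ext (n := p) hS hirr, by simp, by simp⟩
    · push Not at hirr
      obtain ⟨M, hM, hcom, hns⟩ := hirr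
      obtain ⟨a, b, U, W, d, hd, h1, h2, h3, h4, h5, h6, h7⟩ := split hM (hM.eigenvalues ⟨0, hn⟩)
      obtain ⟨c, hc⟩ : ∃ c, c = hM.eigenvalues ⟨0, hn⟩ := ⟨_, rfl⟩
      have ha : 0 < a := h7 _ rfl
      rw [← hc] at hd h5
      have hb : 0 < b := by
        rcases Nat.eq_zero_or_pos b with hb | hb
        · subst hb
          exfalso
          have w4 : W * Wᴴ = 0 := by ext x y; simp [Matrix.mul_apply]
          rw [w4, add_zero] at h4
          apply hns c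
          rw [← Matrix.mul_one M, ← h4, ← Matrix.mul_assoc, h5, Matrix.smul_mul]
        · exact hb
      have hcard := card_add U W h1 h2 h4
      simp only [Fintype.card_fin] at hcard
      have k1 : ∀ j, Uᴴ * X j * W = 0 := by
        intro j
        have e1 : Uᴴ * M = (c : ℂ) • Uᴴ := by
          have := congrArg conjTranspose h5
          rwa [conjTranspose_mul, hM.eq, conjTranspose_smul, star_def, conj_ofReal] at this
        have e2 : Uᴴ * (M * X j) * W = Uᴴ * (X j * M) * W := by rw [hcom]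
        rw [← Matrix.mul_assoc, e1, Matrix.mul_assoc Uᴴ, Matrix.mul_assoc (X j), h6,
          ← Matrix.mul_assoc, ← Matrix.mul_assoc, Matrix.smul_mul, Matrix.smul_mul] at e2
        ext x y
        have e3 := congrFun (congrFun e2 x) y
        rw [mul_diagonal, Matrix.smul_apply, smul_eq_mul] at e3
        have e4 : (d y : ℂ) - c ≠ 0 := sub_ne_zero.mpr (by exact_mod_cast hd y)
        have e5 : (Uᴴ * X j * W) x y * ((d y : ℂ) - c) = 0 := by linear_combination -e3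
        exact (mul_eq_zero.mp e5).resolve_right e4
      have k2 : ∀ j, Wᴴ * X j * U = 0 := by
        intro j
        have := congrArg conjTranspose (k1 j)
        rwa [conjTranspose_mul, conjTranspose_mul, (hS.1 j).eq, conjTranspose_conjTranspose,
          conjTranspose_zero, ← Matrix.mul_assoc] at this
      have r1 : ∀ j, X j * U = U * (Uᴴ * X j * U) := by
        intro j
        have : X j * U = (U * Uᴴ + W * Wᴴ) * (X j * U) := by rw [h4, Matrix.one_mul]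
        rw [this, Matrix.add_mul, Matrix.mul_assoc W, ← Matrix.mul_assoc Wᴴ, k2]
        simp only [Matrix.mul_assoc, Matrix.mul_zero, add_zero]
      have r2 : ∀ j, X j * W = W * (Wᴴ * X j * W) := by
        intro j
        have : X j * W = (U * Uᴴ + W * Wᴴ) * (X j * W) := by rw [h4, Matrix.one_mul]
        rw [this, Matrix.add_mul, Matrix.mul_assoc U, ← Matrix.mul_assoc Uᴴ, k1]
        simp only [Matrix.mul_assoc, Matrix.mul_zero, zero_add]
      refine Hull.two (ih a ha (by omega) _ (hS.red U h1 r1)) (ih b hb (by omega) _ (hS.red W h2 r2))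
        Uᴴ Wᴴ (by simpa using h4) (fun j => ?_)
      simp only [conjTranspose_conjTranspose]
      rw [← r1, ← r2, Matrix.mul_assoc, Matrix.mul_assoc, ← Matrix.mul_add, h4, Matrix.mul_one]

lemma hull_K {n : ℕ+} {X : Tup 8 n} (h : InK X) : X ∈ mconv (freeExt KK) n := by
  obtain ⟨Y, V, hY, hV, hX⟩ := dilate h
  obtain ⟨U, u1, u2⟩ := toFin (Fin n ⊕ (Fin n ⊕ Fin n))
  have hpos : 0 < Fintype.card (Fin n ⊕ (Fin n ⊕ Fin n)) :=
    Fintype.card_pos_iff.mpr ⟨Sum.inl ⟨0, n.2⟩⟩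
  have h1 := hull_S _ _ hpos le_rfl _ (hY.red U u1 (fun j => by
    rw [← Matrix.mul_assoc, ← Matrix.mul_assoc, u2, Matrix.one_mul]))
  have h2 : Hull Y := h1.one Uᴴ (by simpa using u2) (fun j => by
    rw [conjTranspose_conjTranspose, ← Matrix.mul_assoc, ← Matrix.mul_assoc, u2, Matrix.one_mul,
      Matrix.mul_assoc, u2, Matrix.mul_one])
  obtain ⟨J, _, m, Z, W, k1, k2, k3⟩ := h2.one V hV hX
  let e := (Fintype.equivFin J).symm
  refine ⟨_, fun i => m (e i), fun i => Z (e i), fun i => W (e i), fun i => k1 _, ?_, fun j => ?_⟩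
  · rw [← k2]; exact e.sum_comp (fun i => (W i)ᴴ * W i)
  · rw [k3]; exact (e.sum_comp (fun i => (W i)ᴴ * Z i j * W i)).symm

end Pool.Agent.H.MP_c7d282_an
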