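import Pool.Agent.H.MP_c7d282_an.D

set_option autoImplicit false
set_option linter.unusedSectionVars false

namespace Pool.Agent.H.MP_c7d282_an

open Matrix Complex
open scoped ComplexOrder MatrixOrder

section
variable {ι κ : Type} [Fintype ι] [DecidableEq ι] [Fintype κ] [DecidableEq κ]

lemma tr_inv (W : Matrix ι κ ℂ) (h : W * Wᴴ = 1) (A : Matrix ι ι ℂ) :
    (Wᴴ * A * W).trace = A.trace ∧
      ((Wᴴ * A * W) * (Wᴴ * A * W)ᴴ).trace = (A * Aᴴ).trace := by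
  have h1 : ∀ B : Matrix ι ι ℂ, (Wᴴ * B * W).trace = B.trace := by
    intro B; rw [trace_mul_comm, ← Matrix.mul_assoc, h, Matrix.one_mul]
  refine ⟨h1 A, ?_⟩
  rw [← h1 (A * Aᴴ)]
  congr 1
  simp only [conjTranspose_mul, conjTranspose_conjTranspose, Matrix.mul_assoc]
  rw [← Matrix.mul_assoc W, h, Matrix.one_mul]

lemma ker_vec [Nonempty ι] (T : Matrix ι (ι ⊕ ι) ℂ) :
    ∃ a : Matrix (ι ⊕ ι) Unit ℂ, T * a = 0 ∧ aᴴ * a = 1 := by
  have hlt : Module.finrank ℂ (ι → ℂ) < Module.finrank ℂ (ι ⊕ ι → ℂ) := by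
    simp [Fintype.card_pos]
  obtain ⟨v, hv, hv0⟩ := (Submodule.ne_bot_iff _).mp (LinearMap.ker_ne_bot_of_finrank_lt
    (f := T.mulVecLin) hlt)
  rw [LinearMap.mem_ker, mulVecLin_apply] at hv
  obtain ⟨s, hs⟩ : ∃ s : ℝ, s = ∑ k, ‖v k‖ ^ 2 := ⟨_, rfl⟩
  have hs0 : 0 < s := by
    obtain ⟨k, hk⟩ := Function.ne_iff.mp hv0
    rw [hs]
    exact Finset.sum_pos' (fun k _ => by positivity) ⟨k, Finset.mem_univ _, by
      have : v k ≠ 0 := hk
      positivity⟩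
  refine ⟨Matrix.of fun k _ => (((Real.sqrt s)⁻¹ : ℝ) : ℂ) * v k, ?_, ?_⟩
  · ext x y
    have := congrFun hv x
    simp only [mulVec, dotProduct, Pi.zero_apply] at this
    simp only [Matrix.mul_apply, of_apply, Matrix.zero_apply, mul_left_comm (T x _),
      ← Finset.mul_sum, this, mul_zero]
  · ext x y
    have e : ∀ k, star ((((Real.sqrt s)⁻¹ : ℝ) : ℂ) * v k) * ((((Real.sqrt s)⁻¹ : ℝ) : ℂ) * v k) =
        ((s⁻¹ * ‖v k‖ ^ 2 : ℝ) : ℂ) := by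
      intro k
      rw [star_def, Complex.conj_mul', norm_mul, norm_real, Real.norm_of_nonneg (by positivity),
        ← ofReal_pow, mul_pow, inv_pow, Real.sq_sqrt hs0.le]
    simp only [Matrix.mul_apply, of_apply, conjTranspose_apply, e, ← ofReal_sum, ← Finset.mul_sum,
      ← hs, inv_mul_cancel₀ hs0.ne', ofReal_one, one_apply]
    simp

lemma dil1 [Nonempty ι] {X : Fin 8 → Matrix ι ι ℂ} (h : InK X) :
    ∃ (Y : Fin 8 → Matrix (ι ⊕ Unit) (ι ⊕ Unit) ℂ) (V : Matrix (ι ⊕ Unit) ι ℂ),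
      InK Y ∧ Vᴴ * V = 1 ∧ Tm X = Tm (fun j => Vᴴ * Y j * V) ∧
      (Y 0 + I • Y 1).trace = (X 0 + I • X 1).trace ∧
      (Y 2 + I • Y 3).trace = (X 2 + I • X 3).trace ∧
      ((Y 0 + I • Y 1) * (Y 0 + I • Y 1)ᴴ).trace + ((Y 2 + I • Y 3) * (Y 2 + I • Y 3)ᴴ).trace =
      ((X 0 + I • X 1) * (X 0 + I • X 1)ᴴ).trace + ((X 2 + I • X 3) * (X 2 + I • X 3)ᴴ).trace + 1 := by
  obtain ⟨a, a1, a2⟩ := ker_vec (Tm X)
  obtain ⟨A, hA⟩ : ∃ A : Matrix (ι ⊕ Unit) (ι ⊕ ι) ℂ, A = fromRows (Tm X) aᴴ := ⟨_, rfl⟩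
  obtain ⟨T, hT⟩ : ∃ T : Matrix (ι ⊕ Unit) ((ι ⊕ Unit) ⊕ (ι ⊕ Unit)) ℂ,
      T = fromCols (fromCols A.toCols₁ (0 : Matrix _ Unit ℂ))
        (fromCols A.toCols₂ (0 : Matrix _ Unit ℂ)) := ⟨_, rfl⟩
  obtain ⟨V, hV⟩ : ∃ V : Matrix (ι ⊕ Unit) ι ℂ, V = fromRows 1 0 := ⟨_, rfl⟩
  have hVV : Vᴴ * V = 1 := by
    rw [hV, conjTranspose_fromRows_eq_fromCols_conjTranspose, fromCols_mul_fromRows]; simp
  have a3 : aᴴ * (Tm X)ᴴ = 0 := by rw [← conjTranspose_mul, a1, conjTranspose_zero]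
  have hTT : T * Tᴴ = fromBlocks (Tm X * (Tm X)ᴴ) 0 0 1 := by
    have : A * Aᴴ = fromBlocks (Tm X * (Tm X)ᴴ) 0 0 1 := by
      rw [hA, conjTranspose_fromRows_eq_fromCols_conjTranspose, fromRows_mul_fromCols,
        conjTranspose_conjTranspose, a1, a2, a3]
    rw [← this, hT]
    conv_rhs => rw [← fromCols_toCols A]
    simp only [conjTranspose_fromCols_eq_fromRows_conjTranspose, fromCols_mul_fromRows,
      Matrix.zero_mul, add_zero]
  have hTV : T * dbl V = A := by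
    rw [hT, hV, dbl, fromCols_mul_fromBlocks]
    simp [fromCols_mul_fromRows]
  have hP : (1 - T * Tᴴ).PosSemidef := by
    have := (contr_flip _ h.tt).mul_mul_conjTranspose_same V
    convert this using 1
    rw [hTT, hV, conjTranspose_fromRows_eq_fromCols_conjTranspose, fromRows_mul, fromRows_mul_fromCols]
    ext (x | x) (y | y) <;> simp [one_apply]
  obtain ⟨Y, hY, hY1, hY2⟩ := exists_of T (Tᴴ * T) (isHermitian_conjTranspose_mul_self T)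
  have hY3 := hY1
  rw [hT, Tm, fromCols_ext_iff] at hY3
  refine ⟨Y, V, ⟨hY, by rw [hY1, hY2, sub_self]; exact PosSemidef.zero, ?_⟩, hVV, ?_, ?_, ?_, ?_⟩
  · rw [hY2]
    have := contr_flip Tᴴ (by rwa [conjTranspose_conjTranspose])
    rwa [conjTranspose_conjTranspose] at this
  · rw [← Tm_conj, hY1, Matrix.mul_assoc, hTV, hV, hA,
      conjTranspose_fromRows_eq_fromCols_conjTranspose, fromCols_mul_fromRows]; simp
  · rw [hY3.1, hA]; simp [trace, Tm]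
  · rw [hY3.2, hA]; simp [trace, Tm]
  · have e : ∀ {μ : Type} [Fintype μ] [DecidableEq μ] (Z : Fin 8 → Matrix μ μ ℂ),
        ((Z 0 + I • Z 1) * (Z 0 + I • Z 1)ᴴ).trace + ((Z 2 + I • Z 3) * (Z 2 + I • Z 3)ᴴ).trace =
        (Tm Z * (Tm Z)ᴴ).trace := by
      intro μ _ _ Z
      rw [Tm, conjTranspose_fromCols_eq_fromRows_conjTranspose, fromCols_mul_fromRows, trace_add]
    rw [e, e, hY1, hTT]
    simp [trace]

lemma conj_lin (W : Matrix ι κ ℂ) (A B : Matrix ι ι ℂ) :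
    Wᴴ * A * W + I • (Wᴴ * B * W) = Wᴴ * (A + I • B) * W := by
  simp [Matrix.mul_add, Matrix.add_mul]

lemma blk_lin (A B : Matrix ι ι ℂ) (C D : Matrix κ κ ℂ) :
    fromBlocks A 0 0 C + I • fromBlocks B 0 0 D = fromBlocks (A + I • B) 0 0 (C + I • D) := by
  simp [fromBlocks_smul, fromBlocks_add]

lemma blk_tr [Subsingleton κ] (A : Matrix ι ι ℂ) (C : Matrix κ κ ℂ)
    (h : (fromBlocks A 0 0 C).trace = A.trace) :
    (fromBlocks A 0 0 C * (fromBlocks A 0 0 C)ᴴ).trace = (A * Aᴴ).trace := by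
  have h1 : C.trace = 0 := by simpa [trace] using h
  have h2 : C = 0 := by
    ext a b
    obtain rfl := Subsingleton.elim a b
    rwa [trace, Fintype.sum_subsingleton _ a] at h1
  rw [h2, fromBlocks_conjTranspose, fromBlocks_multiply]
  simp [trace]

end

lemma no_ext (n : ℕ+) : freeExt (proj (by norm_num : 4 < 8) KK) n = ∅ := by
  refine Set.eq_empty_of_forall_notMem fun X hX => ?_
  obtain ⟨⟨X', hX', hXX⟩, hfe⟩ := hX
  have : Nonempty (Fin n) := ⟨⟨0, n.2⟩⟩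
  obtain ⟨Y, V, hY, hV, hT, t1, t2, t3⟩ := dil1 hX'
  obtain ⟨p, hp, U, u1, u2⟩ : ∃ p : ℕ+, (p : ℕ) = n + 1 ∧
      ∃ U : Matrix (Fin n ⊕ Unit) (Fin p) ℂ, Uᴴ * U = 1 ∧ U * Uᴴ = 1 :=
    ⟨⟨Fintype.card (Fin n ⊕ Unit), Fintype.card_pos_iff.mpr ⟨Sum.inr ()⟩⟩, by simp,
      toFin (Fin n ⊕ Unit)⟩
  obtain ⟨e0, e1, e2, e3⟩ := ext_T hX'.1 (fun j => isHermitian_conjTranspose_mul_mul _ (hY.1 j)) hT
  have x0 : X 0 = X' 0 := hXX 0
  have x1 : X 1 = X' 1 := hXX 1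
  have x2 : X 2 = X' 2 := hXX 2
  have x3 : X 3 = X' 3 := hXX 3
  have hVV : (Uᴴ * V)ᴴ * (Uᴴ * V) = 1 := by
    rw [conjTranspose_mul, conjTranspose_conjTranspose, Matrix.mul_assoc, ← Matrix.mul_assoc U, u2,
      Matrix.one_mul, hV]
  have key := hfe 1 (fun _ => p) (fun _ j => Uᴴ * Y (Fin.castLE (by norm_num) j) * U)
    (fun _ => Uᴴ * V) (fun _ => ⟨fun j => Uᴴ * Y j * U, hY.conj U u1, fun _ => rfl⟩)
    (fun _ h => by rw [h] at hVV; simp at hVV) ⟨by simpa using hVV, fun j => by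
      have : (Uᴴ * V)ᴴ * (Uᴴ * Y (Fin.castLE (by norm_num) j) * U) * (Uᴴ * V) =
          Vᴴ * Y (Fin.castLE (by norm_num) j) * V := by
        rw [conjTranspose_mul, conjTranspose_conjTranspose]
        simp only [Matrix.mul_assoc]
        rw [← Matrix.mul_assoc U Uᴴ V, u2, ← Matrix.mul_assoc U, u2, Matrix.one_mul, Matrix.one_mul]
      rw [Fin.sum_univ_one, this]
      fin_cases j
      exacts [x0.trans e0, x1.trans e1, x2.trans e2, x3.trans e3]⟩ 0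
  rcases key with ⟨h, -⟩ | ⟨-, q, Z, -, W, w1, w2, w3⟩
  · have : (p : ℕ) = n := congrArg PNat.val h
    omega
  · have hc := card_eq W w1 w2
    simp only [Fintype.card_sum, Fintype.card_fin] at hc
    have : Subsingleton (Fin q) := by
      rw [show (q : ℕ) = 1 by omega]; infer_instance
    have y0 : Uᴴ * Y 0 * U = _ := w3 0
    have y1 : Uᴴ * Y 1 * U = _ := w3 1
    have y2 : Uᴴ * Y 2 * U = _ := w3 2
    have y3 : Uᴴ * Y 3 * U = _ := w3 3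
    have z1 : Uᴴ * (Y 0 + I • Y 1) * U =
        Wᴴ * fromBlocks (X' 0 + I • X' 1) 0 0 (Z 0 + I • Z 1) * W := by
      rw [← conj_lin, y0, y1, conj_lin, blk_lin, x0, x1]
    have z2 : Uᴴ * (Y 2 + I • Y 3) * U =
        Wᴴ * fromBlocks (X' 2 + I • X' 3) 0 0 (Z 2 + I • Z 3) * W := by
      rw [← conj_lin, y2, y3, conj_lin, blk_lin, x2, x3]
    obtain ⟨a1, a2⟩ := tr_inv U u2 (Y 0 + I • Y 1)
    obtain ⟨b1, b2⟩ := tr_inv U u2 (Y 2 + I • Y 3)
    rw [z1, (tr_inv W w2 _).1, t1] at a1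
    rw [z2, (tr_inv W w2 _).1, t2] at b1
    rw [z1, (tr_inv W w2 _).2, blk_tr _ _ a1] at a2
    rw [z2, (tr_inv W w2 _).2, blk_tr _ _ b1] at b2
    rw [← a2, ← b2] at t3
    simp at t3

theorem main : ∃ (g h : ℕ) (hg : h < g) (K : Gr g),
    (∀ n, ∀ X ∈ K n, ∀ j, (X j).IsHermitian) ∧
    (∀ n, mconv K n ⊆ K n) ∧
    (∀ n, IsClosed (K n)) ∧
    (∀ n, ∀ X ∈ K n, ∀ j a b, ‖X j a b‖ ≤ 1) ∧
    K = mconv (freeExt K) ∧
    (∀ n, (proj hg K n).Nonempty) ∧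
    (∀ n, freeExt (proj hg K) n = ∅) ∧
    proj hg K ≠ mconv (freeExt (proj hg K)) := by
  have hne : ∀ n, (proj (by norm_num : 4 < 8) KK n).Nonempty := by
    intro n
    refine ⟨0, 0, ⟨fun _ => isHermitian_zero, ?_, ?_⟩, fun _ => rfl⟩
    · simp [Gm, Tm, PosSemidef.zero]
    · simp [Gm, PosSemidef.one]
  refine ⟨8, 4, by norm_num, KK, fun n X h => h.1, ?_, fun n => closed_K,
    fun n X h => InK.bound h, ?_, hne, no_ext, ?_⟩
  · rintro n X ⟨k, m, Y, V, h1, h2, h3⟩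
    exact comb_inK h1 h2 h3
  · funext n
    refine Set.Subset.antisymm (fun X h => hull_K h) ?_
    rintro X ⟨k, m, Y, V, h1, h2, h3⟩
    exact comb_inK (fun i => (h1 i).1) h2 h3
  · intro h
    obtain ⟨X, hX⟩ := hne 1
    rw [h] at hX
    obtain ⟨k, m, Y, V, h1, h2, -⟩ := hX
    rcases Nat.eq_zero_or_pos k with hk | hk
    · subst hk
      have := congrArg trace h2
      rw [Finset.univ_eq_empty, Finset.sum_empty, trace_zero, trace_one] at this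
      simp at this
    · have := h1 ⟨0, hk⟩
      rw [no_ext] at this
      exact this

end Pool.Agent.H.MP_c7d282_an
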